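import Pool.Agent.H11.NY.Targets

set_option autoImplicit false

namespace Pool.Agent.H51.NYI3a

open Pool.Agent.H11.NY
open scoped commutatorElement

theorem rot {H : Type} [Group H] (A B D D' : Subgroup H) [B.Normal]
    (h1 : ∀ d ∈ D, ∀ d' ∈ D', ∀ x ∈ A,
      d * (d' * x * d'⁻¹ * x⁻¹) * d⁻¹ * (d' * x * d'⁻¹ * x⁻¹)⁻¹ ∈ B) :
    ⁅⁅D'.map (QuotientGroup.mk' B), A.map (QuotientGroup.mk' B)⁆,
      D.map (QuotientGroup.mk' B)⁆ = ⊥ := by
  rw [Subgroup.commutator_eq_bot_iff_le_centralizer, Subgroup.commutator_le]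
  rintro _ ⟨d', hd', rfl⟩ _ ⟨x, hx, rfl⟩
  rw [Subgroup.mem_centralizer_iff]
  rintro _ ⟨d, hd, rfl⟩
  have h2 := h1 d hd d' hd' x hx
  rw [← QuotientGroup.eq_one_iff] at h2
  have h3 : QuotientGroup.mk' B (d * (d' * x * d'⁻¹ * x⁻¹) * d⁻¹ * (d' * x * d'⁻¹ * x⁻¹)⁻¹) = 1 := h2
  rw [map_mul, map_mul, map_mul, map_inv, map_inv, mul_inv_eq_one, mul_inv_eq_iff_eq_mul] at h3
  have h4 : ⁅QuotientGroup.mk' B d', QuotientGroup.mk' B x⁆
      = QuotientGroup.mk' B (d' * x * d'⁻¹ * x⁻¹) := by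
    simp [commutatorElement_def]
  rw [h4]
  exact h3

theorem pf_i3a : T_I3a := by
  intro H Ω _ _ _ _ ψ c A B hA hB hBA hL Δ Δ' hdis hc hc' D D' hD hD' d hd d' hd' x hx
  have h1 := rot A B D D' (hL Δ Δ' hdis hc hc' D D' hD hD')
  have h2 := rot A B D' D (hL Δ' Δ hdis.symm hc' hc D' D hD' hD)
  rw [Subgroup.commutator_comm (D.map _)] at h2
  have h3 := Subgroup.commutator_commutator_eq_bot_of_rotate h1 h2
  rw [← QuotientGroup.eq_one_iff]
  have h4 : ⁅⁅QuotientGroup.mk' B d, QuotientGroup.mk' B d'⁆, QuotientGroup.mk' B x⁆ ∈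
      ⁅⁅D.map (QuotientGroup.mk' B), D'.map (QuotientGroup.mk' B)⁆,
        A.map (QuotientGroup.mk' B)⁆ :=
    Subgroup.commutator_mem_commutator
      (Subgroup.commutator_mem_commutator (Subgroup.mem_map_of_mem _ hd)
        (Subgroup.mem_map_of_mem _ hd')) (Subgroup.mem_map_of_mem _ hx)
  rw [h3, Subgroup.mem_bot] at h4
  rw [← h4]
  simp [commutatorElement_def]

end Pool.Agent.H51.NYI3a
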